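import Pool.Agent.R537.ABA.Main

/-!
# ABA-free hypergraphs can be recognised in polynomial time

Sketch of the proof.  If `a ∈ x \ y` and `b ∈ y \ x` for vertices `a, b` and hyperedges `x, y`,
then in every ABA-free order `a` precedes `b` if and only if `x \ y` precedes `y \ x`.  So the
ordered pairs of vertices split into classes: `(a, b)` and `(a', b')` are linked if
`a, a' ∈ x \ y`, `b, b' ∈ y \ x` for some hyperedges `x, y`.  A hypergraph is ABA-free if and only
if no class contains a pair and its reverse; this can be checked in polynomial time.

For the proof of the criterion each class is oriented so that its lexicographically least pair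
increases.  If `a → b → c` then `a` and `c` are linked as well (their stars are incomparable), so it
is enough to exclude cyclic triples `a → b → c → a`.  For a cyclic triple either no hyperedge
contains exactly two of the three vertices or no hyperedge contains exactly one of them, and from
this one gets the analogue of the triangle lemma of Gallai: if `(a', b')` is in the class of
`(a, b)`, then `(b', c)` is in the class of `(b, c)` and `(c, a')` is in the class of `(c, a)`.
Comparing the least pairs of the three classes one gets a contradiction.
-/

namespace Pool.Agent.Results.MP_a698a1_lc.ABAFreeInP

open Pool.Agent.NPC Pool.Agent.NPC.R537ABA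

/-- It can be decided in polynomial time whether a hypergraph is ABA-free; in particular, if this
problem is `NP`-hard, then `P = NP`. -/
theorem result : InP (lang (AltFree 3)) ∧
    (NPHard (lang (AltFree 3)) → ∀ L, InNP L → InP L) :=
  ⟨aba_inP, fun h => h.collapse aba_inP⟩

end Pool.Agent.Results.MP_a698a1_lc.ABAFreeInP
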